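import Pool.Agent.Work.MP_bd3ec3_nt.LB.I_DB
import Pool.Agent.Work.MP_bd3ec3_nt.LB.I_TT
import Pool.Agent.Work.MP_bd3ec3_nt.LB.I_IN
import Pool.Agent.Work.MP_bd3ec3_nt.LB.I_QR
import Pool.Agent.Work.MP_bd3ec3_nt.LB.I_RP
import Pool.Agent.Work.MP_bd3ec3_nt.LB.I_RT
import Pool.Agent.Work.MP_bd3ec3_nt.LB.I_DV
import Pool.Agent.Work.MP_bd3ec3_nt.LB.I_PT2
import Pool.Agent.Work.MP_bd3ec3_nt.LB.I_NR2
import Pool.Agent.Work.MP_bd3ec3_nt.LB.I_NC2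
import Pool.Agent.Work.MP_bd3ec3_nt.LB.I_RK2
import Pool.Agent.Work.MP_bd3ec3_nt.LB.I_PR2
import Pool.Agent.Work.MP_bd3ec3_nt.LB.I_WA2
import Pool.Agent.Work.MP_bd3ec3_nt.LB.I_WB2
import Pool.Agent.Work.MP_bd3ec3_nt.LB.I_WW2
import Pool.Agent.Work.MP_bd3ec3_nt.LB.I_FB2
import Pool.Agent.Work.MP_bd3ec3_nt.LB.I_GC2
import Pool.Agent.Work.MP_bd3ec3_nt.LB.I_GS2
import Pool.Agent.Work.MP_bd3ec3_nt.LB.I_GX2
import Pool.Agent.Work.MP_bd3ec3_nt.LB.I_FN2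

/-!
# MP_bd3ec3_nt: curves with root number `+1` and rank at least two

For every `ε > 0` there are `c > 0` and `H₀` such that for `H ≥ H₀` at least `c H^(3/16 - ε)` of the sixth
power free integers `k` with `27 k² ≤ H` satisfy `w(E_k) = +1` and `rk E_k(ℚ) ≥ 2`, `E_k : y² = x³ + k`.
-/

set_option autoImplicit false

open Pool.Agent.Work.MP_bd3ec3_nt.LB

namespace Pool.Agent.Results.MP_bd3ec3_nt.SignPlusRankTwo

/-- For every `ε > 0` there are `c > 0` and `H₀` such that for `H ≥ H₀` at least `c H^(3/16 - ε)` nonzero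
sixth power free integers `k` with `27 k² ≤ H` (`27 k²` is the height of `E_k : y² = x³ + k`) have
`rootNumber k = 1` (the explicit formula for the root number of `E_k`) and two independent points in
`E_k(ℚ)`. -/
theorem result (ε : ℝ) (hε : 0 < ε) : ∃ c : ℝ, 0 < c ∧ ∃ H₀ : ℝ, ∀ H : ℝ, H₀ ≤ H →
    c * H ^ ((3 : ℝ) / 16 - ε) ≤ ((Good H).ncard : ℝ) :=
  have hRK : S_RK2 := pr_RK2 pr_DB pr_TT pr_IN pr_PT2 (pr_NR2 pr_QR) pr_NC2
  have hWW : S_WW2 := pr_WW2 pr_PR2 pr_WA2 pr_WB2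
  have hFB : S_FB2 := pr_FB2 pr_RP pr_RT pr_DV
  pr_FN2 hRK hWW hFB pr_GC2 (pr_GX2 pr_PR2 pr_GS2) ε hε

end Pool.Agent.Results.MP_bd3ec3_nt.SignPlusRankTwo
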