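import Pool.Agent.Work.MP_bd3ec3_nt.SG.I_KX
import Pool.Agent.Work.MP_bd3ec3_nt.SG.I_KC
import Pool.Agent.Work.MP_bd3ec3_nt.SG.I_KY
import Pool.Agent.Work.MP_bd3ec3_nt.SG.I_KU
import Pool.Agent.Work.MP_bd3ec3_nt.SG.I_K2
import Pool.Agent.Work.MP_bd3ec3_nt.SG.I_KL
import Pool.Agent.Work.MP_bd3ec3_nt.SG.I_KF
import Pool.Agent.Work.MP_bd3ec3_nt.SG.I_N1
import Pool.Agent.Work.MP_bd3ec3_nt.SG.I_DV
import Pool.Agent.Work.MP_bd3ec3_nt.SG.I_HV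
import Pool.Agent.Work.MP_bd3ec3_nt.SG.I_LR
import Pool.Agent.Work.MP_bd3ec3_nt.SG.I_FC
import Pool.Agent.Work.MP_bd3ec3_nt.SG.I_SD
import Pool.Agent.Work.MP_bd3ec3_nt.SG.I_RR
import Pool.Agent.Work.MP_bd3ec3_nt.SG.I_DG
import Pool.Agent.Work.MP_bd3ec3_nt.SG.I_HC
import Pool.Agent.Work.MP_bd3ec3_nt.SG.I_QF
import Pool.Agent.Work.MP_bd3ec3_nt.SG.I_DC
import Pool.Agent.Work.MP_bd3ec3_nt.SG.I_Z0
import Pool.Agent.Work.MP_bd3ec3_nt.SG.I_LC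
import Pool.Agent.Work.MP_bd3ec3_nt.SG.I_NZ
import Pool.Agent.Work.MP_bd3ec3_nt.SG.I_S2
import Pool.Agent.Work.MP_bd3ec3_nt.SG.I_IJ
import Pool.Agent.Work.MP_bd3ec3_nt.SG.I_RB
import Pool.Agent.Work.MP_bd3ec3_nt.SG.I_RE
import Pool.Agent.Work.MP_bd3ec3_nt.SG.I_DQ
import Pool.Agent.Work.MP_bd3ec3_nt.SP.I_BR
import Pool.Agent.Work.MP_bd3ec3_nt.SP.I_LN
import Pool.Agent.Work.MP_bd3ec3_nt.SP.I_DB
import Pool.Agent.Work.MP_bd3ec3_nt.SP.I_CT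
import Pool.Agent.Work.MP_bd3ec3_nt.SP.I_E1
import Pool.Agent.Work.MP_bd3ec3_nt.SP.I_E2
import Pool.Agent.Work.MP_bd3ec3_nt.SP.I_SA
import Pool.Agent.Work.MP_bd3ec3_nt.SP.I_SE
import Pool.Agent.Work.MP_bd3ec3_nt.SP.I_RT
import Pool.Agent.Work.MP_bd3ec3_nt.SP.I_MN

/-!
# Even elliptic curves of rank at least two: curves with a small rational point do not matter
-/

set_option autoImplicit false

namespace Pool.Agent.Results.MP_bd3ec3_nt.SmallPoints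

open Pool.Agent.Work.MP_bd3ec3_nt.SP Pool.Agent.Work.MP_bd3ec3_nt.SG Filter Topology

/-- For every `κ < 1` there are `η, C > 0` such that for all `H ≥ 1` at most `C H^(19/24 - η)` elliptic curves
`y² = x³ + A x + B` of height at most `H` have an affine rational point `(x, y)` with
`max(|num x|, H^(1/6) den x) ≤ H^κ`. Consequently, for every function `w` in the place of the root
number, and for every `c`, the number of the curves of height at most `H` with `w = 1` and rank at least two,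
divided by `H^(19/24) (log H)^(3/8)`, tends to `c` if and only if the number of those of them which have no
such point, divided by `H^(19/24) (log H)^(3/8)`, tends to `c`. -/
theorem result (κ : ℝ) (hκ : κ < 1) :
    (∃ η > (0 : ℝ), ∃ C > (0 : ℝ), ∀ H : ℝ, 1 ≤ H →
      (({p : ℤ × ℤ | 4 * p.1 ^ 3 + 27 * p.2 ^ 2 ≠ 0 ∧ ht p.1 p.2 ≤ H ∧ Sm κ H p.1 p.2}.ncard : ℕ) : ℝ) ≤
        C * H ^ ((19 : ℝ) / 24 - η)) ∧
    ∀ (w : ℤ → ℤ → ℤ) (c : ℝ),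
      Tendsto (fun H : ℝ => ((SN w H).ncard : ℝ) / ord H) atTop (𝓝 c) ↔
        Tendsto (fun H : ℝ => ((SS w κ H).ncard : ℝ) / ord H) atTop (𝓝 c) := by
  have hE1 := pr_E1 pr_BR pr_LN pr_CT
  have hE2 := pr_E2 pr_BR pr_LN pr_CT
  have hMN := pr_MN (pr_SE (pr_SA hE1 hE2) pr_DB) pr_RT
  have hRE := pg_RE (pg_RR pg_FC pg_SD) pg_LR
  have hAlt := pg_N1 pr_RT pg_QF pg_IJ pg_HV pg_NZ hRE pg_DG
  have hKU := pg_KU (pg_KY (pg_KX (pg_HC pg_LC pg_RB))) pg_KC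
  have hZ0 := pg_Z0 (pg_S2 hE1 hE2) pr_DB
  have hK2 := pg_K2 hAlt hKU pg_DC hZ0
  have hKL := pg_KL pg_DV pg_DQ hMN hK2
  exact ⟨hKL κ hκ, fun w c => pg_KF hKL w κ hκ c⟩

end Pool.Agent.Results.MP_bd3ec3_nt.SmallPoints
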